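import Pool.Agent.Q42.LG.Bog

namespace Pool.Agent.Q42.LG
open Finset MeasureTheory

section kset
variable {I A : Type*} [Group A] {J : Finset I}

theorem Kset.conj {h : I → A} (hh : Kset J h) (c : I → A) : Kset J (c * h * c⁻¹) := by
  constructor
  · intro i hi
    exact (inferInstance : (commutator A).Normal).conj_mem _ (hh.1 i hi) (c i)
  · intro i hi
    simp [hh.2 i hi]

theorem Kset.mul {h g : I → A} (hh : Kset J h) (hg : Kset J g) : Kset J (h * g) := by
  constructor
  · intro i hi
    exact Subgroup.mul_mem _ (hh.1 i hi) (hg.1 i hi)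
  · intro i hi
    simp [hh.2 i hi, hg.2 i hi]

theorem Kset.inv {h : I → A} (hh : Kset J h) : Kset J h⁻¹ := by
  constructor
  · intro i hi
    exact Subgroup.inv_mem _ (hh.1 i hi)
  · intro i hi
    simp [hh.2 i hi]

theorem Kset.one : Kset J (1 : I → A) := ⟨fun _ _ => Subgroup.one_mem _, fun _ _ => rfl⟩
end kset

section
variable {G X I A : Type*} [Group G] [MulAction G X] [Fintype I] [DecidableEq I] [Group A] [Fintype A] [DecidableEq A]

/-- the sum over the products `t * ι c` -/
noncomputable def R (ι : (I → A) →* G) (T : Finset G) (ρ : X → X → ℝ) (x y : X) : ℝ :=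
  ∑ t ∈ T, ∑ c : I → A, ρ (t • ι c • x) (t • ι c • y)

theorem R_inv (ι : (I → A) →* G) (T : Finset G) (ρ : X → X → ℝ) (h : I → A) (x y : X) :
    R ι T ρ (ι h • x) (ι h • y) = R ι T ρ x y := by
  unfold R
  apply Finset.sum_congr rfl
  intro t _
  apply Fintype.sum_equiv (Equiv.mulRight h)
  intro c
  simp only [Equiv.coe_mulRight, map_mul, mul_smul]

theorem R_symm (ι : (I → A) →* G) (T : Finset G) (ρ : X → X → ℝ) (hs : ∀ x y, ρ x y = ρ y x) (x y : X) :
    R ι T ρ x y = R ι T ρ y x := by
  unfold R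
  exact Finset.sum_congr rfl fun t _ => Finset.sum_congr rfl fun c _ => hs _ _

theorem R_tri (ι : (I → A) →* G) (T : Finset G) (ρ : X → X → ℝ) (ht : ∀ x y z, ρ x z ≤ ρ x y + ρ y z) (x y z : X) :
    R ι T ρ x z ≤ R ι T ρ x y + R ι T ρ y z := by
  unfold R
  rw [← Finset.sum_add_distrib]
  apply Finset.sum_le_sum
  intro t _
  rw [← Finset.sum_add_distrib]
  exact Finset.sum_le_sum fun c _ => ht _ _ _

theorem stepB (ι : (I → A) →* G) (T : Finset G) (ρ : X → X → ℝ) (hs : ∀ x y, ρ x y = ρ y x)
    (ht : ∀ x y z, ρ x z ≤ ρ x y + ρ y z) (x : X) (k : ℕ) (r : ℝ) (P : Fin k → Set X)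
    (hP : ∀ i, ∀ y ∈ P i, ∀ z ∈ P i, R ι T ρ y z ≤ r) (X0 : Set X) (hcov : ∀ y, y ∈ X0 ∨ ∃ i, y ∈ P i)
    [DecidablePred fun h : I → A => ι h • x ∈ X0]
    (hx : 2 * (Finset.univ.filter fun h : I → A => ι h • x ∈ X0).card ≤ Fintype.card (I → A)) :
    ∃ J : Finset I, Jᶜ.card ≤ 256 * k ^ 4 ∧ ∀ h : I → A, Kset J h → R ι T ρ (ι h • x) x ≤ 4 * r := by
  classical
  have hN0 : 0 < Fintype.card (I → A) := Fintype.card_pos
  let Q : Fin k → Finset (I → A) := fun i => Finset.univ.filter fun h => ι h • x ∈ P i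
  have hQ : ∃ i, Fintype.card (I → A) ≤ 2 * k * (Q i).card := by
    by_contra hcon
    push Not at hcon
    have h1 : Fintype.card (I → A) ≤ (Finset.univ.filter fun h : I → A => ι h • x ∈ X0).card + ∑ i, (Q i).card := by
      rw [← Finset.card_univ]
      have h2 : (Finset.univ : Finset (I → A)) ⊆ (Finset.univ.filter fun h : I → A => ι h • x ∈ X0) ∪ Finset.univ.biUnion Q := by
        intro h _
        rcases hcov (ι h • x) with hh | ⟨i, hi⟩
        · exact Finset.mem_union_left _ (Finset.mem_filter.2 ⟨Finset.mem_univ _, hh⟩)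
        · exact Finset.mem_union_right _ (Finset.mem_biUnion.2 ⟨i, Finset.mem_univ _, Finset.mem_filter.2 ⟨Finset.mem_univ _, hi⟩⟩)
      calc _ ≤ _ := Finset.card_le_card h2
        _ ≤ _ := Finset.card_union_le _ _
        _ ≤ _ := Nat.add_le_add_left Finset.card_biUnion_le _
    have h3 : ∑ i, 2 * k * (Q i).card ≤ ∑ i : Fin k, (Fintype.card (I → A) - 1) := by
      apply Finset.sum_le_sum
      intro i _
      have := hcon i
      omega
    rw [← Finset.mul_sum, Finset.sum_const, Finset.card_univ, Fintype.card_fin, smul_eq_mul] at h3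
    rcases Nat.eq_zero_or_pos k with hk | hk
    · subst hk
      have h5 : ∑ i : Fin 0, (Q i).card = 0 := by simp
      rw [h5] at h1
      omega
    · have h4 : 2 * ∑ i, (Q i).card ≤ Fintype.card (I → A) - 1 := by
        have : k * (2 * ∑ i, (Q i).card) ≤ k * (Fintype.card (I → A) - 1) := by
          calc k * (2 * ∑ i, (Q i).card) = 2 * k * ∑ i, (Q i).card := by ring
            _ ≤ _ := h3
        exact Nat.le_of_mul_le_mul_left this hk
      omega
  obtain ⟨i, hi⟩ := hQ
  let B : Finset (I → A) := Finset.univ.filter fun h => R ι T ρ (ι h • x) x ≤ r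
  have hQB : (Q i).card ≤ B.card := by
    have hne : (Q i).Nonempty := by
      rw [Finset.nonempty_iff_ne_empty]
      intro h0
      rw [h0, Finset.card_empty, mul_zero] at hi
      omega
    obtain ⟨h0, hh0⟩ := hne
    apply Finset.card_le_card_of_injOn (fun h => h0⁻¹ * h)
    · intro h hh
      rw [Finset.mem_coe, Finset.mem_filter] at hh ⊢
      refine ⟨Finset.mem_univ _, ?_⟩
      rw [← R_inv ι T ρ h0, ← mul_smul, ← map_mul, mul_inv_cancel_left]
      exact hP i _ hh.2 _ (Finset.mem_filter.1 hh0).2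
    · intro a _ b _ hab
      exact mul_left_cancel hab
  have hBs : ∀ b ∈ B, b⁻¹ ∈ B := by
    intro b hb
    rw [Finset.mem_filter] at hb ⊢
    refine ⟨Finset.mem_univ _, ?_⟩
    rw [← R_inv ι T ρ b, ← mul_smul, ← map_mul, mul_inv_cancel, map_one, one_smul, R_symm ι T ρ hs]
    exact hb.2
  obtain ⟨J, hJ1, hJ2⟩ := bog B hBs k (hi.trans (Nat.mul_le_mul_left _ hQB))
  refine ⟨J, hJ1, ?_⟩
  intro h hh
  obtain ⟨b1, h1, b2, h2, b3, h3, b4, h4, rfl⟩ := hJ2 h hh
  have hmul : ∀ a b : I → A, R ι T ρ (ι (a * b) • x) x ≤ R ι T ρ (ι b • x) x + R ι T ρ (ι a • x) x := by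
    intro a b
    calc R ι T ρ (ι (a * b) • x) x ≤ R ι T ρ (ι (a * b) • x) (ι a • x) + R ι T ρ (ι a • x) x := R_tri ι T ρ ht _ _ _
      _ = _ := by rw [map_mul, mul_smul, R_inv]
  have e1 := (Finset.mem_filter.1 h1).2
  have e2 := (Finset.mem_filter.1 h2).2
  have e3 := (Finset.mem_filter.1 h3).2
  have e4 := (Finset.mem_filter.1 h4).2
  have m1 := hmul (b1 * b2 * b3) b4
  have m2 := hmul (b1 * b2) b3
  have m3 := hmul b1 b2
  linarith

theorem stepC (ι : (I → A) →* G) (T : Finset G) (ρ : X → X → ℝ) (h0 : ∀ x y, 0 ≤ ρ x y) (hs : ∀ x y, ρ x y = ρ y x)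
    (ht : ∀ x y z, ρ x z ≤ ρ x y + ρ y z) (x : X) (r : ℝ) (J : Finset I)
    (hJ : ∀ h : I → A, Kset J h → R ι T ρ (ι h • x) x ≤ 4 * r) (b : G) (β : G → (I → A))
    (hb : ∀ t ∈ T, b * t = t * ι (β t)) (m : ℕ) [DecidablePred fun t => Kset J (β t)]
    (hm : (T.filter fun t => ¬ Kset J (β t)).card ≤ m) :
    ∑ t ∈ T, ∑ c : I → A, min 1 (ρ (t • ι c • x) (b • t • ι c • x)) ≤ 8 * r + m * Fintype.card (I → A) := by
  classical
  let K : Finset (I → A) := Finset.univ.filter fun h => Kset J h
  have hK1 : (0 : ℝ) < K.card := by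
    have : 0 < K.card := Finset.card_pos.2 ⟨1, Finset.mem_filter.2 ⟨Finset.mem_univ _, Kset.one⟩⟩
    exact_mod_cast this
  rw [← Finset.sum_filter_add_sum_filter_not T (fun t => Kset J (β t))]
  apply add_le_add
  · have hgood : ∀ t ∈ T, Kset J (β t) → (K.card : ℝ) * ∑ c : I → A, min 1 (ρ (t • ι c • x) (b • t • ι c • x)) ≤
        2 * ∑ h ∈ K, ∑ c : I → A, ρ (t • ι c • ι h • x) (t • ι c • x) := by
      intro t htT hβ
      let D : X → ℝ := fun z => ∑ h ∈ K, ρ (t • ι h • z) (t • z)
      have h1 : ∀ z, (K.card : ℝ) * min 1 (ρ (t • z) (b • t • z)) ≤ D z + D (ι (β t) • z) := by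
        intro z
        have h2 : b • t • z = t • ι (β t) • z := by rw [← mul_smul, hb t htT, mul_smul]
        have h3 : D (ι (β t) • z) = ∑ h ∈ K, ρ (t • ι h • z) (t • ι (β t) • z) := by
          simp only [D]
          apply Finset.sum_bij (fun h _ => h * β t)
          · intro h hh
            exact Finset.mem_filter.2 ⟨Finset.mem_univ _, (Finset.mem_filter.1 hh).2.mul hβ⟩
          · intro a _ a' _ haa
            exact mul_right_cancel haa
          · intro h hh
            exact ⟨h * (β t)⁻¹, Finset.mem_filter.2 ⟨Finset.mem_univ _, (Finset.mem_filter.1 hh).2.mul hβ.inv⟩, by simp⟩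
          · intro h _
            rw [map_mul, mul_smul]
        rw [h3, h2]
        change (K.card : ℝ) * _ ≤ ∑ h ∈ K, ρ (t • ι h • z) (t • z) + _
        rw [← Finset.sum_add_distrib, ← nsmul_eq_mul, ← Finset.sum_const]
        apply Finset.sum_le_sum
        intro h _
        calc min 1 (ρ (t • z) (t • ι (β t) • z)) ≤ ρ (t • z) (t • ι (β t) • z) := min_le_right _ _
          _ ≤ ρ (t • z) (t • ι h • z) + ρ (t • ι h • z) (t • ι (β t) • z) := ht _ _ _
          _ = _ := by rw [hs (t • z)]
      rw [Finset.mul_sum]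
      have h4 : ∑ c : I → A, D (ι (β t) • ι c • x) = ∑ c : I → A, D (ι c • x) := by
        apply Fintype.sum_equiv (Equiv.mulLeft (β t))
        intro c
        simp only [Equiv.coe_mulLeft, map_mul, mul_smul]
      have h5 : ∑ c : I → A, D (ι c • x) = ∑ h ∈ K, ∑ c : I → A, ρ (t • ι c • ι h • x) (t • ι c • x) := by
        refine Eq.trans ?_ (Finset.sum_comm (s := (Finset.univ : Finset (I → A))) (t := K)
          (f := fun c h => ρ (t • ι c • ι h • x) (t • ι c • x)))
        apply Finset.sum_congr rfl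
        intro c _
        change ∑ h ∈ K, ρ (t • ι h • ι c • x) (t • ι c • x) = _
        symm
        apply Finset.sum_bij (fun h _ => c * h * c⁻¹)
        · intro h hh
          exact Finset.mem_filter.2 ⟨Finset.mem_univ _, (Finset.mem_filter.1 hh).2.conj c⟩
        · intro a _ a' _ haa
          exact mul_left_cancel (mul_right_cancel haa)
        · intro h hh
          refine ⟨c⁻¹ * h * c, Finset.mem_filter.2 ⟨Finset.mem_univ _, ?_⟩, by group⟩
          have := (Finset.mem_filter.1 hh).2.conj c⁻¹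
          simpa using this
        · intro h _
          rw [map_mul, map_mul, mul_smul, mul_smul, ← mul_smul (ι c⁻¹), ← map_mul, inv_mul_cancel, map_one, one_smul]
      calc ∑ c : I → A, (K.card : ℝ) * min 1 (ρ (t • ι c • x) (b • t • ι c • x))
          ≤ ∑ c : I → A, (D (ι c • x) + D (ι (β t) • ι c • x)) := Finset.sum_le_sum fun c _ => h1 _
        _ = 2 * ∑ h ∈ K, ∑ c : I → A, ρ (t • ι c • ι h • x) (t • ι c • x) := by
            rw [Finset.sum_add_distrib, h4, h5]; ring
    have h6 : (K.card : ℝ) * ∑ t ∈ T.filter (fun t => Kset J (β t)), ∑ c : I → A, min 1 (ρ (t • ι c • x) (b • t • ι c • x)) ≤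
        K.card * (8 * r) := by
      rw [Finset.mul_sum]
      calc ∑ t ∈ T.filter (fun t => Kset J (β t)), (K.card : ℝ) * ∑ c : I → A, min 1 (ρ (t • ι c • x) (b • t • ι c • x))
          ≤ ∑ t ∈ T.filter (fun t => Kset J (β t)), 2 * ∑ h ∈ K, ∑ c : I → A, ρ (t • ι c • ι h • x) (t • ι c • x) :=
            Finset.sum_le_sum fun t htt => hgood t (Finset.mem_filter.1 htt).1 (Finset.mem_filter.1 htt).2
        _ ≤ ∑ t ∈ T, 2 * ∑ h ∈ K, ∑ c : I → A, ρ (t • ι c • ι h • x) (t • ι c • x) := by
            apply Finset.sum_le_sum_of_subset_of_nonneg (Finset.filter_subset _ _)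
            intro t _ _
            apply mul_nonneg (by norm_num)
            exact Finset.sum_nonneg fun h _ => Finset.sum_nonneg fun c _ => h0 _ _
        _ = 2 * ∑ h ∈ K, R ι T ρ (ι h • x) x := by
            unfold R
            rw [← Finset.mul_sum, Finset.sum_comm]
        _ ≤ 2 * ∑ h ∈ K, 4 * r := by
            apply mul_le_mul_of_nonneg_left _ (by norm_num)
            exact Finset.sum_le_sum fun h hh => hJ h (Finset.mem_filter.1 hh).2
        _ = K.card * (8 * r) := by
            rw [Finset.sum_const, nsmul_eq_mul]; ring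
    exact le_of_mul_le_mul_left h6 hK1
  · calc ∑ t ∈ T.filter (fun t => ¬ Kset J (β t)), ∑ c : I → A, min 1 (ρ (t • ι c • x) (b • t • ι c • x))
        ≤ ∑ t ∈ T.filter (fun t => ¬ Kset J (β t)), (Fintype.card (I → A) : ℝ) := by
          apply Finset.sum_le_sum
          intro t _
          calc _ ≤ ∑ c : I → A, (1 : ℝ) := Finset.sum_le_sum fun c _ => min_le_left _ _
            _ = _ := by rw [Finset.sum_const, Finset.card_univ, nsmul_eq_mul, mul_one]
      _ = (T.filter fun t => ¬ Kset J (β t)).card * (Fintype.card (I → A) : ℝ) := by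
          rw [Finset.sum_const, nsmul_eq_mul]
      _ ≤ m * Fintype.card (I → A) := by
          apply mul_le_mul_of_nonneg_right _ (Nat.cast_nonneg _)
          exact_mod_cast hm

theorem stepD [MeasurableSpace X] (μ : Measure X) [IsProbabilityMeasure μ]
    (hμ : ∀ g : G, MeasurePreserving (fun x : X => g • x) μ μ)
    (ι : (I → A) →* G) (T : Finset G) (ρ : X → X → ℝ) (hmeas : Measurable (Function.uncurry ρ))
    (h0 : ∀ x y, 0 ≤ ρ x y) (hs : ∀ x y, ρ x y = ρ y x) (ht : ∀ x y z, ρ x z ≤ ρ x y + ρ y z)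
    (k : ℕ) (r : ℝ) (hr : 0 ≤ r) (P : Fin k → Set X)
    (hP : ∀ i, ∀ y ∈ P i, ∀ z ∈ P i, R ι T ρ y z ≤ r) (X0 : Set X) (hX0 : MeasurableSet X0)
    (hcov : ∀ y, y ∈ X0 ∨ ∃ i, y ∈ P i) (b : G) (j : G → I) (a : G → A) (ha : ∀ t ∈ T, a t ∈ commutator A)
    (hj : Set.InjOn j T) (hb : ∀ t ∈ T, b * t = t * ι (Pi.mulSingle (j t) (a t))) :
    (T.card * Fintype.card (I → A) : ℝ) * ∫ x, min 1 (ρ x (b • x)) ∂μ ≤
      8 * r + 256 * k ^ 4 * Fintype.card (I → A) + 2 * (T.card * Fintype.card (I → A)) * μ.real X0 := by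
  classical
  have hf : Measurable fun y : X => min 1 (ρ y (b • y)) := by
    apply measurable_const.min
    exact hmeas.comp (measurable_id.prodMk (hμ b).measurable)
  have hfi : Integrable (fun y : X => min 1 (ρ y (b • y))) μ := by
    apply Integrable.of_bound hf.aestronglyMeasurable 1
    refine Filter.Eventually.of_forall fun y => ?_
    rw [Real.norm_eq_abs, abs_of_nonneg (le_min zero_le_one (h0 _ _))]
    exact min_le_left _ _
  have hcomp : ∀ g : G, Integrable (fun y : X => min 1 (ρ (g • y) (b • g • y))) μ ∧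
      ∫ y, min 1 (ρ (g • y) (b • g • y)) ∂μ = ∫ y, min 1 (ρ y (b • y)) ∂μ := by
    intro g
    constructor
    · exact (hμ g).integrable_comp_of_integrable hfi
    · have h1 := MeasureTheory.integral_map (μ := μ) (hμ g).measurable.aemeasurable (f := fun y : X => min 1 (ρ y (b • y)))
        (by rw [(hμ g).map_eq]; exact hf.aestronglyMeasurable)
      rw [(hμ g).map_eq] at h1
      exact h1.symm
  have hS : ∀ x : X, ∑ t ∈ T, ∑ c : I → A, min 1 (ρ (t • ι c • x) (b • t • ι c • x)) ≤
      8 * r + 256 * k ^ 4 * Fintype.card (I → A) +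
        2 * T.card * ∑ h : I → A, X0.indicator (fun _ => (1 : ℝ)) (ι h • x) := by
    intro x
    have hq : ∑ h : I → A, X0.indicator (fun _ => (1 : ℝ)) (ι h • x) = ((Finset.univ.filter fun h : I → A => ι h • x ∈ X0).card : ℝ) := by
      rw [Finset.card_filter]
      push_cast
      apply Finset.sum_congr rfl
      intro h _
      simp [Set.indicator_apply]
    by_cases hx : 2 * (Finset.univ.filter fun h : I → A => ι h • x ∈ X0).card ≤ Fintype.card (I → A)
    · obtain ⟨J, hJ1, hJ2⟩ := stepB ι T ρ hs ht x k r P hP X0 hcov hx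
      have h1 := stepC ι T ρ h0 hs ht x r J hJ2 b (fun t => Pi.mulSingle (j t) (a t)) hb (256 * k ^ 4) (by
        refine le_trans ?_ hJ1
        apply Finset.card_le_card_of_injOn j
        · intro t htt
          rw [Finset.mem_coe, Finset.mem_filter] at htt
          rw [Finset.mem_coe, Finset.mem_compl]
          intro hjJ
          apply htt.2
          constructor
          · intro i _
            by_cases hij : i = j t
            · subst hij
              rw [Pi.mulSingle_eq_same]
              exact ha t htt.1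
            · rw [Pi.mulSingle_eq_of_ne hij]
              exact Subgroup.one_mem _
          · intro i hi
            rw [Pi.mulSingle_eq_of_ne]
            rintro rfl
            exact hi hjJ
        · intro t1 h1 t2 h2 h12
          exact hj (Finset.mem_filter.1 h1).1 (Finset.mem_filter.1 h2).1 h12)
      refine h1.trans ?_
      push_cast
      have : 0 ≤ 2 * (T.card : ℝ) * ∑ h : I → A, X0.indicator (fun _ => (1 : ℝ)) (ι h • x) := by
        rw [hq]; positivity
      linarith
    · have h1 : ∑ t ∈ T, ∑ c : I → A, min 1 (ρ (t • ι c • x) (b • t • ι c • x)) ≤ T.card * Fintype.card (I → A) := by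
        calc _ ≤ ∑ t ∈ T, ∑ c : I → A, (1 : ℝ) := Finset.sum_le_sum fun t _ => Finset.sum_le_sum fun c _ => min_le_left _ _
          _ = _ := by simp [Finset.card_univ]
      have h2 : (Fintype.card (I → A) : ℝ) ≤ 2 * ((Finset.univ.filter fun h : I → A => ι h • x ∈ X0).card : ℝ) := by
        exact_mod_cast (not_le.1 hx).le
      rw [hq]
      have h3 : (T.card : ℝ) * Fintype.card (I → A) ≤ T.card * (2 * ((Finset.univ.filter fun h : I → A => ι h • x ∈ X0).card : ℝ)) :=
        mul_le_mul_of_nonneg_left h2 (Nat.cast_nonneg _)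
      have h4 : 0 ≤ 256 * (k : ℝ) ^ 4 * Fintype.card (I → A) := by positivity
      calc _ ≤ _ := h1
        _ ≤ _ := h3
        _ = 0 + 2 * T.card * ((Finset.univ.filter fun h : I → A => ι h • x ∈ X0).card : ℝ) := by ring
        _ ≤ _ := by
          apply add_le_add_left
          linarith
  have hind : ∀ h : I → A, Integrable (fun x : X => X0.indicator (fun _ => (1 : ℝ)) (ι h • x)) μ ∧
      ∫ x, X0.indicator (fun _ => (1 : ℝ)) (ι h • x) ∂μ = μ.real X0 := by
    intro h
    have h1 : Integrable (X0.indicator (fun _ => (1 : ℝ))) μ := (integrable_const 1).indicator hX0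
    constructor
    · exact (hμ (ι h)).integrable_comp_of_integrable h1
    · have h2 : ∫ x, X0.indicator (fun _ => (1 : ℝ)) x ∂μ = μ.real X0 := by
        rw [integral_indicator_const _ hX0]; simp
      have h3 := MeasureTheory.integral_map (μ := μ) (hμ (ι h)).measurable.aemeasurable
        (f := X0.indicator (fun _ => (1 : ℝ))) (by rw [(hμ (ι h)).map_eq]; exact h1.aestronglyMeasurable)
      rw [(hμ (ι h)).map_eq] at h3
      rw [← h2]
      exact h3.symm
  have hint1 : ∫ x, ∑ t ∈ T, ∑ c : I → A, min 1 (ρ (t • ι c • x) (b • t • ι c • x)) ∂μ =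
      (T.card * Fintype.card (I → A) : ℝ) * ∫ x, min 1 (ρ x (b • x)) ∂μ := by
    rw [integral_finsetSum _ (fun t _ => integrable_finsetSum _ fun c _ => by
      have := (hcomp (t * ι c)).1
      simpa only [mul_smul] using this)]
    have h1 : ∀ t ∈ T, ∫ x, ∑ c : I → A, min 1 (ρ (t • ι c • x) (b • t • ι c • x)) ∂μ =
        Fintype.card (I → A) * ∫ x, min 1 (ρ x (b • x)) ∂μ := by
      intro t _
      rw [integral_finsetSum _ (fun c _ => by
        have := (hcomp (t * ι c)).1
        simpa only [mul_smul] using this)]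
      have h2 : ∀ c : I → A, ∫ x, min 1 (ρ (t • ι c • x) (b • t • ι c • x)) ∂μ = ∫ x, min 1 (ρ x (b • x)) ∂μ := by
        intro c
        have := (hcomp (t * ι c)).2
        simpa only [mul_smul] using this
      rw [Finset.sum_congr rfl fun c _ => h2 c, Finset.sum_const, Finset.card_univ, nsmul_eq_mul]
    rw [Finset.sum_congr rfl h1, Finset.sum_const, nsmul_eq_mul]
    ring
  rw [← hint1]
  have hint2 : ∫ x, (8 * r + 256 * k ^ 4 * Fintype.card (I → A) +
        2 * T.card * ∑ h : I → A, X0.indicator (fun _ => (1 : ℝ)) (ι h • x)) ∂μ =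
      8 * r + 256 * k ^ 4 * Fintype.card (I → A) + 2 * (T.card * Fintype.card (I → A)) * μ.real X0 := by
    rw [integral_add (integrable_const _) ((integrable_finsetSum _ fun h _ => (hind h).1).const_mul _)]
    rw [integral_const, integral_const_mul, integral_finsetSum _ (fun h _ => (hind h).1)]
    rw [Finset.sum_congr rfl fun h _ => (hind h).2, Finset.sum_const, Finset.card_univ, nsmul_eq_mul]
    simp
    ring
  rw [← hint2]
  apply integral_mono
  · exact integrable_finsetSum _ fun t _ => integrable_finsetSum _ fun c _ => by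
      have := (hcomp (t * ι c)).1
      simpa only [mul_smul] using this
  · exact (integrable_const _).add ((integrable_finsetSum _ fun h _ => (hind h).1).const_mul _)
  · exact hS

end
end Pool.Agent.Q42.LG
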