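import Mathlib

namespace Pool.Agent.Q42.LG
open Finset

theorem comm_zero {E : Type*} [Ring E] [Algebra ℝ E] {X Y : E} {m : ℕ} (hm : 1 ≤ m) (hX : X ^ m = 1)
    (h : Commute (X * Y - Y * X) X) : X * Y = Y * X := by
  set Z := X * Y - Y * X with hZ
  have h2 : X * Z = Z * X := h.symm.eq
  have key : ∀ n : ℕ, X ^ (n + 1) * Y = Y * X ^ (n + 1) + ((n : ℝ) + 1) • (Z * X ^ n) := by
    intro n
    induction n with
    | zero => simp [hZ]
    | succ n ih =>
      calc X ^ (n + 1 + 1) * Y = X * (X ^ (n + 1) * Y) := by rw [pow_succ' X (n + 1), mul_assoc]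
        _ = X * (Y * X ^ (n + 1)) + ((n : ℝ) + 1) • (X * Z * X ^ n) := by
            rw [ih, mul_add, mul_smul_comm, mul_assoc X Z]
        _ = _ := by
            rw [h2, ← mul_assoc X Y]
            have : X * Y = Y * X + Z := by rw [hZ]; abel
            rw [this, add_mul, mul_assoc Y X, ← pow_succ' X (n + 1)]
            rw [mul_assoc Z X, ← pow_succ' X n]
            push_cast
            module
  obtain ⟨n, rfl⟩ : ∃ n, m = n + 1 := ⟨m - 1, by omega⟩
  have h3 := key n
  rw [hX, one_mul, mul_one] at h3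
  have h4 : ((n : ℝ) + 1) • (Z * X ^ n) = 0 := by
    have := left_eq_add.1 h3
    exact this
  have h5 : Z * X ^ n = 0 := by
    have : ((n : ℝ) + 1) ≠ 0 := by positivity
    exact (smul_eq_zero.1 h4).resolve_left this
  have h6 : Z = 0 := by
    have h7 : Z * X ^ n * X = 0 := by rw [h5, zero_mul]
    rw [mul_assoc, ← pow_succ, hX, mul_one] at h7
    exact h7
  exact sub_eq_zero.1 h6

theorem card_noncomm {E : Type*} [Ring E] [Algebra ℝ E] [FiniteDimensional ℝ E] {ι : Type*} [DecidableEq ι]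
    (S : Finset ι) (X Y : ι → E) {m : ℕ} (hm : 1 ≤ m) (hX : ∀ i ∈ S, X i ^ m = 1)
    (hc : ∀ i ∈ S, ∀ j ∈ S, i ≠ j → Commute (X i) (X j) ∧ Commute (X i) (Y j))
    (hn : ∀ i ∈ S, X i * Y i ≠ Y i * X i) : S.card ≤ Module.finrank ℝ E := by
  have hli : LinearIndependent ℝ (fun i : S => X i * Y i - Y i * X i) := by
    rw [linearIndependent_iff']
    intro s g hg i hi
    by_contra hgi
    apply hn i i.2
    apply comm_zero hm (hX i i.2)
    have h1 : g i • (X i * Y i - Y i * X i) = - ∑ j ∈ s.erase i, g j • (X j * Y j - Y j * X j) := by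
      rw [← Finset.add_sum_erase s _ hi] at hg
      exact eq_neg_of_add_eq_zero_left hg
    have h2 : Commute (∑ j ∈ s.erase i, g j • (X j * Y j - Y j * X j)) (X i) := by
      apply Finset.sum_induction _ (fun z => Commute z (X i))
      · intro a b ha hb; exact ha.add_left hb
      · exact Commute.zero_left _
      · intro j hj
        have hij : (i : ι) ≠ j := fun h => (Finset.mem_erase.1 hj).1 (Subtype.ext h.symm)
        obtain ⟨ha, hb⟩ := hc i i.2 j j.2 hij
        apply Commute.smul_left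
        exact ((ha.mul_right hb).sub_right (hb.mul_right ha)).symm
    have h3 : Commute (g i • (X i * Y i - Y i * X i)) (X i) := by rw [h1]; exact h2.neg_left
    have h4 : (g i)⁻¹ • (g i • (X i * Y i - Y i * X i)) = X i * Y i - Y i * X i := by
      rw [smul_smul, inv_mul_cancel₀ hgi, one_smul]
    rw [← h4]
    exact h3.smul_left _
  have := hli.fintype_card_le_finrank
  simpa using this

theorem exists_eig {Γ : Type*} [Fintype Γ] [DecidableEq Γ] (T : Matrix Γ Γ ℝ) (hT : T.IsHermitian) :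
    ∃ (U : Γ → Γ → ℝ) (l : Γ → ℝ), (∀ i j, ∑ h, U i h * U j h = if i = j then 1 else 0) ∧
      (∀ h h', ∑ i, U i h * U i h' = if h = h' then 1 else 0) ∧
      (∀ i h, ∑ h', T h h' * U i h' = l i * U i h) := by
  have h1 : ∀ i j, ∑ h, hT.eigenvectorBasis i h * hT.eigenvectorBasis j h = if i = j then (1 : ℝ) else 0 := by
    intro i j
    have := orthonormal_iff_ite.1 hT.eigenvectorBasis.orthonormal i j
    rw [PiLp.inner_apply] at this
    rw [← this]
    apply Finset.sum_congr rfl
    intro h _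
    simp [mul_comm]
  refine ⟨fun i h => hT.eigenvectorBasis i h, hT.eigenvalues, h1, ?_, ?_⟩
  · let W : Matrix Γ Γ ℝ := Matrix.of fun i h => hT.eigenvectorBasis i h
    have hW : W * W.transpose = 1 := by
      ext i j
      rw [Matrix.mul_apply, Matrix.one_apply]
      exact h1 i j
    have hW' : W.transpose * W = 1 := mul_eq_one_comm.1 hW
    intro h h'
    have := congrFun (congrFun hW' h) h'
    rw [Matrix.mul_apply, Matrix.one_apply] at this
    exact this
  · intro i h
    have := congrFun (hT.mulVec_eigenvectorBasis i) h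
    rw [Matrix.mulVec, dotProduct] at this
    simpa using this

section group
variable {Γ : Type*} [Group Γ] [Fintype Γ] [DecidableEq Γ]

theorem bog_gen (B : Finset Γ) (hne : B.Nonempty) (hs : ∀ b ∈ B, b⁻¹ ∈ B) :
    ∃ (S : Finset Γ) (M : Γ →* Matrix S S ℝ), (S.card : ℝ) * (B.card : ℝ) ^ 2 ≤ 4 * (Fintype.card Γ : ℝ) ^ 2 ∧
      ∀ h, M h = 1 → ∃ b1 ∈ B, ∃ b2 ∈ B, ∃ b3 ∈ B, ∃ b4 ∈ B, h = b1 * b2 * b3 * b4 := by
  classical
  let T : Matrix Γ Γ ℝ := Matrix.of fun h h' => if h⁻¹ * h' ∈ B then 1 else 0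
  have hTsymm : ∀ h h', T h h' = T h' h := by
    intro h h'
    simp only [T, Matrix.of_apply]
    congr 1
    apply propext
    constructor
    · intro hh
      have := hs _ hh
      simpa using this
    · intro hh
      have := hs _ hh
      simpa using this
  have hTinv : ∀ g h h', T (g * h) (g * h') = T h h' := by
    intro g h h'
    simp only [T, Matrix.of_apply]
    rw [show (g * h)⁻¹ * (g * h') = h⁻¹ * h' by group]
  have hTH : T.IsHermitian := by
    ext i j
    simp only [Matrix.conjTranspose_apply, star_trivial]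
    exact hTsymm j i
  obtain ⟨U, l, hU1, hU2, hU3⟩ := exists_eig T hTH
  set N : ℝ := (Fintype.card Γ : ℝ) with hN
  set β : ℝ := (B.card : ℝ) with hβ
  have hβ0 : 0 < β := by rw [hβ]; exact_mod_cast hne.card_pos
  have hN0 : 0 < N := by
    rw [hN]
    exact_mod_cast Fintype.card_pos
  have hrow : ∀ h, ∑ h', T h h' = β := by
    intro h
    have : ∑ h', T h h' = ∑ b, T h (h * b) := (Fintype.sum_equiv (Equiv.mulLeft h) _ _ (fun b => rfl)).symm
    rw [this]
    simp [T, hβ]
  have hTsq : ∀ h h', T h h' * T h h' = T h h' := by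
    intro h h'
    simp only [T, Matrix.of_apply]
    split_ifs <;> simp
  have hTexp : ∀ h h', T h h' = ∑ i, l i * (U i h * U i h') := by
    intro h h'
    have : ∀ i, l i * (U i h * U i h') = ∑ g, T h g * (U i g * U i h') := by
      intro i
      rw [← mul_assoc, ← hU3 i h, Finset.sum_mul]
      exact Finset.sum_congr rfl fun g _ => by ring
    rw [Finset.sum_congr rfl fun i _ => this i, Finset.sum_comm]
    simp_rw [← Finset.mul_sum, hU2]
    simp
  have hT2 : ∀ h h', ∑ g, T h g * T g h' = ∑ i, l i ^ 2 * (U i h * U i h') := by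
    intro h h'
    have h1 : ∀ g, T h g * T g h' = ∑ i, l i * (U i h' * (T h g * U i g)) := by
      intro g
      rw [hTexp g h', Finset.mul_sum]
      exact Finset.sum_congr rfl fun i _ => by ring
    rw [Finset.sum_congr rfl fun g _ => h1 g, Finset.sum_comm]
    apply Finset.sum_congr rfl
    intro i _
    rw [← Finset.mul_sum, ← Finset.mul_sum, hU3]
    ring
  have hT3 : ∀ i h, ∑ h', (∑ g, T h g * T g h') * U i h' = l i ^ 2 * U i h := by
    intro i h
    simp_rw [Finset.sum_mul]
    rw [Finset.sum_comm]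
    have : ∀ g, ∑ h', T h g * T g h' * U i h' = T h g * (l i * U i g) := by
      intro g
      rw [← hU3 i g, Finset.mul_sum]
      exact Finset.sum_congr rfl fun h' _ => by ring
    rw [Finset.sum_congr rfl fun g _ => this g]
    have : ∀ g, T h g * (l i * U i g) = l i * (T h g * U i g) := fun g => by ring
    rw [Finset.sum_congr rfl fun g _ => this g, ← Finset.mul_sum, hU3]
    ring
  have hT4 : ∀ h h', ∑ g, (∑ a, T h a * T a g) * (∑ b, T g b * T b h') = ∑ i, l i ^ 4 * (U i h * U i h') := by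
    intro h h'
    have h1 : ∀ g, (∑ a, T h a * T a g) * (∑ b, T g b * T b h') =
        ∑ i, l i ^ 2 * (U i h' * ((∑ a, T h a * T a g) * U i g)) := by
      intro g
      rw [hT2 g h', Finset.mul_sum]
      exact Finset.sum_congr rfl fun i _ => by ring
    rw [Finset.sum_congr rfl fun g _ => h1 g, Finset.sum_comm]
    apply Finset.sum_congr rfl
    intro i _
    rw [← Finset.mul_sum, ← Finset.mul_sum, hT3]
    ring
  have hdiag : ∀ h, ∑ i, l i ^ 2 * U i h ^ 2 = β := by
    intro h
    have h1 := hT2 h h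
    have h2 : ∑ g, T h g * T g h = β := by
      rw [← hrow h]
      apply Finset.sum_congr rfl
      intro g _
      rw [hTsymm g h, hTsq]
    rw [h2] at h1
    rw [h1]
    exact Finset.sum_congr rfl fun i _ => by ring
  have htrace : ∑ i, l i ^ 2 = N * β := by
    have h1 : ∑ h : Γ, ∑ i, l i ^ 2 * U i h ^ 2 = N * β := by
      rw [Finset.sum_congr rfl fun h _ => hdiag h, Finset.sum_const, nsmul_eq_mul, Finset.card_univ]
    rw [← h1, Finset.sum_comm]
    apply Finset.sum_congr rfl
    intro i _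
    rw [← Finset.mul_sum]
    have := hU1 i i
    simp only [if_true] at this
    have h2 : ∑ h, U i h ^ 2 = 1 := by
      rw [← this]
      exact Finset.sum_congr rfl fun h _ => by ring
    rw [h2, mul_one]
  -- the threshold
  set τ2 : ℝ := β ^ 3 / (4 * N) with hτ2
  have hτ0 : 0 < τ2 := by positivity
  let S : Finset Γ := Finset.univ.filter fun i => τ2 ≤ l i ^ 2
  have hScard : (S.card : ℝ) * β ^ 2 ≤ 4 * N ^ 2 := by
    have h1 : (S.card : ℝ) * τ2 ≤ N * β := by
      rw [← htrace, ← nsmul_eq_mul, ← Finset.sum_const]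
      calc ∑ i ∈ S, τ2 ≤ ∑ i ∈ S, l i ^ 2 := Finset.sum_le_sum fun i hi => (Finset.mem_filter.1 hi).2
        _ ≤ ∑ i, l i ^ 2 := Finset.sum_le_sum_of_subset_of_nonneg (Finset.subset_univ _) fun i _ _ => sq_nonneg _
    have h2 : (S.card : ℝ) * τ2 * (4 * N) ≤ N * β * (4 * N) := by
      apply mul_le_mul_of_nonneg_right h1 (by positivity)
    have h3 : (S.card : ℝ) * τ2 * (4 * N) = (S.card : ℝ) * β ^ 2 * β := by
      rw [hτ2]; field_simp
    rw [h3] at h2
    have h4 : N * β * (4 * N) = 4 * N ^ 2 * β := by ring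
    rw [h4] at h2
    exact le_of_mul_le_mul_right h2 hβ0
  -- the translation matrices
  let m : Γ → Γ → Γ → ℝ := fun g j i => ∑ h, U j h * U i (g⁻¹ * h)
  have hm_eig : ∀ g j i, l j * m g j i = l i * m g j i := by
    intro g j i
    have h1 : ∀ h, ∑ h', T h h' * U i (g⁻¹ * h') = l i * U i (g⁻¹ * h) := by
      intro h
      rw [← hU3 i (g⁻¹ * h)]
      rw [← Fintype.sum_equiv (Equiv.mulLeft g) (fun a => T h (g * a) * U i a) (fun h' => T h h' * U i (g⁻¹ * h'))
        (fun a => by simp)]
      apply Finset.sum_congr rfl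
      intro a _
      rw [← hTinv g⁻¹ h (g * a), inv_mul_cancel_left]
    calc l j * m g j i = ∑ h, (l j * U j h) * U i (g⁻¹ * h) := by
          simp only [m]; rw [Finset.mul_sum]; exact Finset.sum_congr rfl fun h _ => by ring
      _ = ∑ h, ∑ h', T h h' * U j h' * U i (g⁻¹ * h) := by
          apply Finset.sum_congr rfl
          intro h _
          rw [← hU3 j h, Finset.sum_mul]
      _ = ∑ h', ∑ h, T h h' * U j h' * U i (g⁻¹ * h) := Finset.sum_comm
      _ = ∑ h', U j h' * (l i * U i (g⁻¹ * h')) := by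
          apply Finset.sum_congr rfl
          intro h' _
          rw [← h1 h', Finset.mul_sum]
          apply Finset.sum_congr rfl
          intro h _
          rw [hTsymm h h']
          ring
      _ = l i * m g j i := by
          simp only [m]; rw [Finset.mul_sum]; exact Finset.sum_congr rfl fun h _ => by ring
  have hm_zero : ∀ g j i, i ∈ S → j ∉ S → m g j i = 0 := by
    intro g j i hi hj
    have h1 := hm_eig g j i
    have h2 : l j ≠ l i := by
      intro h
      apply hj
      rw [Finset.mem_filter] at hi ⊢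
      exact ⟨Finset.mem_univ _, by rw [h]; exact hi.2⟩
    have h3 : (l j - l i) * m g j i = 0 := by linear_combination h1
    exact (mul_eq_zero.1 h3).resolve_left (sub_ne_zero.2 h2)
  have hm_mul : ∀ g g' j i, m (g * g') j i = ∑ k, m g j k * m g' k i := by
    intro g g' j i
    have h1 : ∀ k, m g j k * m g' k i = ∑ h, ∑ h', U j h * U i (g'⁻¹ * h') * (U k (g⁻¹ * h) * U k h') := by
      intro k
      simp only [m]
      rw [Finset.sum_mul_sum]
      exact Finset.sum_congr rfl fun h _ => Finset.sum_congr rfl fun h' _ => by ring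
    rw [Finset.sum_congr rfl fun k _ => h1 k, Finset.sum_comm]
    simp only [m]
    apply Finset.sum_congr rfl
    intro h _
    rw [Finset.sum_comm]
    simp_rw [← Finset.mul_sum, hU2]
    simp [mul_assoc]
  have hm_one : ∀ j i, m 1 j i = if j = i then 1 else 0 := by
    intro j i
    simp only [m, inv_one, one_mul]
    exact hU1 j i
  have hm_exp : ∀ g i h, U i (g⁻¹ * h) = ∑ j, m g j i * U j h := by
    intro g i h
    have h1 : ∀ j, m g j i * U j h = ∑ h', U i (g⁻¹ * h') * (U j h' * U j h) := by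
      intro j
      simp only [m]
      rw [Finset.sum_mul]
      exact Finset.sum_congr rfl fun h' _ => by ring
    rw [Finset.sum_congr rfl fun j _ => h1 j, Finset.sum_comm]
    simp_rw [← Finset.mul_sum, hU2]
    simp
  let M : Γ →* Matrix S S ℝ :=
    { toFun := fun g => Matrix.of fun j i => m g j i
      map_one' := by
        ext j i
        rw [Matrix.of_apply, hm_one, Matrix.one_apply]
        by_cases hji : j = i
        · rw [if_pos hji, if_pos (congrArg Subtype.val hji)]
        · rw [if_neg hji, if_neg (fun h' => hji (Subtype.ext h'))]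
      map_mul' := by
        intro g g'
        ext j i
        rw [Matrix.mul_apply, Matrix.of_apply, hm_mul]
        simp only [Matrix.of_apply]
        rw [Finset.sum_coe_sort S (fun k => m g j k * m g' k i)]
        symm
        apply Finset.sum_subset (Finset.subset_univ _)
        intro k _ hk
        rw [hm_zero g' k i i.2 hk, mul_zero] }
  refine ⟨S, M, hScard, ?_⟩
  intro g hg
  have hgm : ∀ j ∈ S, ∀ i ∈ S, m g j i = if j = i then 1 else 0 := by
    intro j hj i hi
    have h1 : m g j i = (1 : Matrix S S ℝ) ⟨j, hj⟩ ⟨i, hi⟩ := congrFun (congrFun hg ⟨j, hj⟩) ⟨i, hi⟩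
    rw [h1, Matrix.one_apply]
    by_cases hji : j = i
    · rw [if_pos hji, if_pos (Subtype.ext hji)]
    · rw [if_neg hji, if_neg (fun h' => hji (congrArg Subtype.val h'))]
  have hUg : ∀ i ∈ S, U i g = U i 1 := by
    intro i hi
    have h1 := hm_exp g i g
    rw [inv_mul_cancel] at h1
    rw [h1]
    have h2 : ∑ j, m g j i * U j g = ∑ j ∈ S, m g j i * U j g := by
      symm
      apply Finset.sum_subset (Finset.subset_univ _)
      intro k _ hk
      rw [hm_zero g k i hi hk, zero_mul]
    rw [h2, Finset.sum_eq_single i]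
    · rw [hgm i hi i hi, if_pos rfl, one_mul]
    · intro j hj hji
      rw [hgm j hj i hi, if_neg hji, zero_mul]
    · intro h; exact absurd hi h
  have hbig1 : β ^ 4 / N ≤ ∑ i, l i ^ 4 * (U i 1 * U i 1) := by
    rw [← hT4 1 1]
    have h0 : ∀ g, (∑ a, T 1 a * T a g) * (∑ b, T g b * T b 1) = (∑ a, T 1 a * T a g) ^ 2 := by
      intro g
      rw [sq]
      congr 1
      exact Finset.sum_congr rfl fun b _ => by rw [hTsymm g b, hTsymm b 1, mul_comm]
    rw [Finset.sum_congr rfl fun g _ => h0 g]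
    have h1 : ∑ g, ∑ a, T 1 a * T a g = β ^ 2 := by
      rw [Finset.sum_comm]
      simp_rw [← Finset.mul_sum, hrow]
      rw [← Finset.sum_mul, hrow]; ring
    have h2 := sq_sum_le_card_mul_sum_sq (s := (Finset.univ : Finset Γ)) (f := fun g => ∑ a, T 1 a * T a g)
    rw [h1, Finset.card_univ] at h2
    rw [div_le_iff₀ hN0]
    calc β ^ 4 = (β ^ 2) ^ 2 := by ring
      _ ≤ _ := h2
      _ = _ := by rw [hN]; ring
  have hpos : 0 < ∑ i, l i ^ 4 * (U i 1 * U i g) := by
    have h1 : ∀ i, l i ^ 4 * (U i 1 * U i 1) - τ2 * (l i ^ 2 * U i 1 ^ 2) - τ2 * ((l i ^ 2 * U i 1 ^ 2 + l i ^ 2 * U i g ^ 2) / 2) ≤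
        l i ^ 4 * (U i 1 * U i g) := by
      intro i
      by_cases hi : i ∈ S
      · rw [hUg i hi]
        have : 0 ≤ τ2 * (l i ^ 2 * U i 1 ^ 2) := mul_nonneg hτ0.le (mul_nonneg (sq_nonneg _) (sq_nonneg _))
        linarith
      · have h2 : l i ^ 2 < τ2 := by
          by_contra hcon
          exact hi (Finset.mem_filter.2 ⟨Finset.mem_univ _, not_lt.1 hcon⟩)
        have h3 : l i ^ 4 * (U i 1 * U i 1) ≤ τ2 * (l i ^ 2 * U i 1 ^ 2) := by
          have : l i ^ 4 * (U i 1 * U i 1) = l i ^ 2 * (l i ^ 2 * U i 1 ^ 2) := by ring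
          rw [this]
          exact mul_le_mul_of_nonneg_right h2.le (by positivity)
        have h4 : - (τ2 * ((l i ^ 2 * U i 1 ^ 2 + l i ^ 2 * U i g ^ 2) / 2)) ≤ l i ^ 4 * (U i 1 * U i g) := by
          have h5 : l i ^ 4 * -(U i 1 * U i g) ≤ l i ^ 4 * ((U i 1 ^ 2 + U i g ^ 2) / 2) := by
            apply mul_le_mul_of_nonneg_left _ (by positivity)
            nlinarith [sq_nonneg (U i 1 + U i g)]
          have h6 : l i ^ 4 * ((U i 1 ^ 2 + U i g ^ 2) / 2) ≤ τ2 * ((l i ^ 2 * U i 1 ^ 2 + l i ^ 2 * U i g ^ 2) / 2) := by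
            have : l i ^ 4 * ((U i 1 ^ 2 + U i g ^ 2) / 2) = l i ^ 2 * ((l i ^ 2 * U i 1 ^ 2 + l i ^ 2 * U i g ^ 2) / 2) := by ring
            rw [this]
            exact mul_le_mul_of_nonneg_right h2.le (by positivity)
          linarith
        linarith
    have h2 : ∑ i, (l i ^ 4 * (U i 1 * U i 1) - τ2 * (l i ^ 2 * U i 1 ^ 2) - τ2 * ((l i ^ 2 * U i 1 ^ 2 + l i ^ 2 * U i g ^ 2) / 2)) ≤
        ∑ i, l i ^ 4 * (U i 1 * U i g) := Finset.sum_le_sum fun i _ => h1 i
    have h3 : ∑ i, (l i ^ 4 * (U i 1 * U i 1) - τ2 * (l i ^ 2 * U i 1 ^ 2) - τ2 * ((l i ^ 2 * U i 1 ^ 2 + l i ^ 2 * U i g ^ 2) / 2)) =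
        ∑ i, l i ^ 4 * (U i 1 * U i 1) - 2 * (τ2 * β) := by
      rw [Finset.sum_sub_distrib, Finset.sum_sub_distrib, ← Finset.mul_sum, ← Finset.mul_sum, ← Finset.sum_div,
        Finset.sum_add_distrib, hdiag, hdiag]
      ring
    rw [h3] at h2
    have h4 : 2 * (τ2 * β) = β ^ 4 / N / 2 := by
      rw [hτ2]
      have : N ≠ 0 := hN0.ne'
      field_simp
      try ring
    have h5 : 0 < β ^ 4 / N := div_pos (pow_pos hβ0 4) hN0
    linarith
  rw [← hT4 1 g] at hpos
  obtain ⟨c, _, hc⟩ := Finset.exists_ne_zero_of_sum_ne_zero hpos.ne'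
  obtain ⟨hc1, hc2⟩ := mul_ne_zero_iff.1 hc
  obtain ⟨a, _, ha⟩ := Finset.exists_ne_zero_of_sum_ne_zero hc1
  obtain ⟨b, _, hb⟩ := Finset.exists_ne_zero_of_sum_ne_zero hc2
  obtain ⟨ha1, ha2⟩ := mul_ne_zero_iff.1 ha
  obtain ⟨hb1, hb2⟩ := mul_ne_zero_iff.1 hb
  have hmem : ∀ x y, T x y ≠ 0 → x⁻¹ * y ∈ B := by
    intro x y hxy
    by_contra hcon
    apply hxy
    simp only [T, Matrix.of_apply]
    rw [if_neg hcon]
  refine ⟨_, hmem _ _ ha1, _, hmem _ _ ha2, _, hmem _ _ hb1, _, hmem _ _ hb2, ?_⟩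
  group

end group

/-- the elements of the product supported on `J`, with values in the commutator subgroup -/
def Kset {I A : Type*} [Group A] (J : Finset I) (h : I → A) : Prop :=
  (∀ i ∈ J, h i ∈ commutator A) ∧ ∀ i, i ∉ J → h i = 1

theorem bog {I A : Type*} [Fintype I] [DecidableEq I] [Group A] [Fintype A] [DecidableEq A] (B : Finset (I → A))
    (hs : ∀ b ∈ B, b⁻¹ ∈ B) (k : ℕ) (hk : Fintype.card (I → A) ≤ 2 * k * B.card) :
    ∃ J : Finset I, Jᶜ.card ≤ 256 * k ^ 4 ∧ ∀ h : I → A, Kset J h →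
      ∃ b1 ∈ B, ∃ b2 ∈ B, ∃ b3 ∈ B, ∃ b4 ∈ B, h = b1 * b2 * b3 * b4 := by
  classical
  have hN0 : 0 < Fintype.card (I → A) := Fintype.card_pos
  have hne : B.Nonempty := by
    rw [Finset.nonempty_iff_ne_empty]
    rintro rfl
    rw [Finset.card_empty, mul_zero] at hk
    omega
  obtain ⟨S, M, hS, hM⟩ := bog_gen B hne hs
  have hS2 : S.card ≤ 16 * k ^ 2 := by
    have hβ : (0 : ℝ) < (B.card : ℝ) := by exact_mod_cast hne.card_pos
    have h1 : (Fintype.card (I → A) : ℝ) ≤ 2 * k * B.card := by exact_mod_cast hk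
    have h2 : (S.card : ℝ) * (B.card : ℝ) ^ 2 ≤ 4 * (2 * k * B.card) ^ 2 := by
      refine hS.trans ?_
      gcongr
    have h3 : (S.card : ℝ) * (B.card : ℝ) ^ 2 ≤ (16 * k ^ 2) * (B.card : ℝ) ^ 2 := by
      calc _ ≤ _ := h2
        _ = _ := by ring
    have h4 := le_of_mul_le_mul_right h3 (by positivity)
    exact_mod_cast h4
  let bad : Finset I := Finset.univ.filter fun i => ∃ x y : A,
    M (Pi.mulSingle i x) * M (Pi.mulSingle i y) ≠ M (Pi.mulSingle i y) * M (Pi.mulSingle i x)
  have hbad : bad.card ≤ S.card ^ 2 := by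
    have h1 : ∀ i, ∃ x y : A, i ∈ bad →
        M (Pi.mulSingle i x) * M (Pi.mulSingle i y) ≠ M (Pi.mulSingle i y) * M (Pi.mulSingle i x) := by
      intro i
      by_cases hi : i ∈ bad
      · obtain ⟨x, y, hxy⟩ := (Finset.mem_filter.1 hi).2
        exact ⟨x, y, fun _ => hxy⟩
      · exact ⟨1, 1, fun h => absurd h hi⟩
    choose x y hxy using h1
    have h2 := card_noncomm (E := Matrix S S ℝ) bad (fun i => M (Pi.mulSingle i (x i))) (fun i => M (Pi.mulSingle i (y i)))
      (m := Fintype.card A) Fintype.card_pos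
      (by
        intro i _
        rw [← map_pow, ← map_one M]
        congr 1
        rw [← Pi.mulSingle_pow, pow_card_eq_one, Pi.mulSingle_one])
      (by
        intro i _ j _ hij
        constructor
        · exact (Pi.mulSingle_commute hij _ _).map M
        · exact (Pi.mulSingle_commute hij _ _).map M)
      (fun i hi => hxy i hi)
    rw [Module.finrank_matrix] at h2
    simpa [sq] using h2
  refine ⟨badᶜ, ?_, ?_⟩
  · rw [compl_compl]
    calc bad.card ≤ S.card ^ 2 := hbad
      _ ≤ (16 * k ^ 2) ^ 2 := Nat.pow_le_pow_left hS2 2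
      _ = 256 * k ^ 4 := by ring
  · intro h hh
    apply hM
    have h1 : ∀ i, Pi.mulSingle i (h i) ∈ M.ker := by
      intro i
      by_cases hi : i ∈ bad
      · have : h i = 1 := hh.2 i (by simpa using hi)
        rw [this, Pi.mulSingle_one]
        exact Subgroup.one_mem _
      · have h2 : h i ∈ commutator A := hh.1 i (by simpa using hi)
        have h3 : commutator A ≤ M.ker.comap (MonoidHom.mulSingle (fun _ : I => A) i) := by
          rw [commutator_def, Subgroup.commutator_le]
          intro a _ b _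
          rw [Subgroup.mem_comap, MonoidHom.mem_ker]
          have h4 : M (Pi.mulSingle i a) * M (Pi.mulSingle i b) = M (Pi.mulSingle i b) * M (Pi.mulSingle i a) := by
            by_contra hcon
            exact hi (Finset.mem_filter.2 ⟨Finset.mem_univ _, a, b, hcon⟩)
          have h5 : M (Pi.mulSingle i (a * b * a⁻¹ * b⁻¹)) =
              M (Pi.mulSingle i a) * M (Pi.mulSingle i b) * M (Pi.mulSingle i a⁻¹) * M (Pi.mulSingle i b⁻¹) := by
            rw [← map_mul, ← map_mul, ← map_mul, ← Pi.mulSingle_mul, ← Pi.mulSingle_mul, ← Pi.mulSingle_mul]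
          change M (Pi.mulSingle i (a * b * a⁻¹ * b⁻¹)) = 1
          rw [h5, h4]
          rw [← map_mul, ← map_mul, ← map_mul, ← Pi.mulSingle_mul, ← Pi.mulSingle_mul, ← Pi.mulSingle_mul]
          simp
        exact h3 h2
    have h2 : h ∈ M.ker := Subgroup.pi_mem_of_mulSingle_mem h h1
    exact h2

end Pool.Agent.Q42.LG
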